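import Pool.Agent.Y560.TG.Stm

/-!
Project TG, step C1: finitely many big classes over a point.
-/

set_option autoImplicit false

namespace Pool.Agent.Y41.TG

open Set MeasureTheory
open Pool.Agent.Y560.TG
open Pool.Agent.H899R2.VP (St Adj PIso BF IsoOn idOn inv comp zipSet)
open Pool.Agent.H533R2.VO (RS lift put OS Ic RIso Dich VC BlkV S_FINAL)
open Pool.Agent.H566P (ar R2 v2 a0 a1 lt ac co mk LA LL MB lab sh prec pull S_ACC S_MSG)

theorem mem_Se {ε : ℕ → Bool} {k : ℕ} : 2 * k + 1 ∈ Se ε ↔ ε k = true := by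
  constructor
  · rintro ⟨j, hj⟩
    cases h : ε j
    · rw [h] at hj
      simp only [Bool.toNat_false] at hj
      omega
    · rw [h] at hj
      simp only [Bool.toNat_true] at hj
      have : k = j := by omega
      rw [this]; exact h
  · intro h
    exact ⟨k, by rw [h]; rfl⟩

theorem mem_Se' {ε : ℕ → Bool} {k : ℕ} : 2 * k ∈ Se ε ↔ ε k = false := by
  constructor
  · rintro ⟨j, hj⟩
    cases h : ε j
    · rw [h] at hj
      simp only [Bool.toNat_false] at hj
      have : k = j := by omega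
      rw [this]; exact h
    · rw [h] at hj
      simp only [Bool.toNat_true] at hj
      omega
  · intro h
    exact ⟨k, by rw [h]; rfl⟩

theorem pick_Se (R : R2) (V : ℕ → R2) (ε : ℕ → Bool) (k : ℕ) :
    pick R V (Se ε) (some k) = V (2 * k + (ε k).toNat) := by
  unfold pick
  simp only
  cases h : ε k
  · rw [if_neg (by rw [mem_Se, h]; simp), if_pos (mem_Se'.2 h)]
    rfl
  · rw [if_pos (mem_Se.2 h)]
    rfl

theorem pick_single (R : R2) (V : ℕ → R2) {s : ℕ} {j : ℕ} (h : s / 2 = j) :
    pick R V {s} (some j) = V s := by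
  unfold pick
  simp only [mem_singleton_iff]
  by_cases h1 : 2 * j + 1 = s
  · rw [if_pos h1, h1]
  · rw [if_neg h1]
    have h2 : 2 * j = s := by omega
    rw [if_pos h2, h2]

/-- All parts of `V s` on its class, for `s ∈ S`. -/
theorem type_single {Γ : Type} [Group Γ] {g : ℕ → Γ} (hg : Function.Surjective g) (h1 : S_FAM1)
    {α : Ordinal.{0}} {R : R2} {y d : ℕ → ℕ} {V : ℕ → R2} (hF : Fm g α R y d V) (s : ℕ) :
    Ob (FX R y d V {s}) (y (s / 2)) (d (s / 2)) = Ob R (y (s / 2)) (d (s / 2)) ∧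
    IsoOn (lift (lb (V s) (y (s / 2)))) (lift (lb (FX R y d V {s}) (y (s / 2))))
      (Ob R (y (s / 2)) (d (s / 2))) (Ob R (y (s / 2)) (d (s / 2))) ∅ := by
  obtain ⟨F1, F2, F3, F4, F5, F6⟩ := h1 Γ g hg α R y d V hF
  refine ⟨F3 {s} (s / 2), ?_⟩
  have := F4 {s} (s / 2)
  rw [pick_single R V rfl] at this
  exact this.mono (empty_subset _)

/-- The types of the variations are pairwise different. -/
theorem types_ne {Γ : Type} [Group Γ] {g : ℕ → Γ} (hg : Function.Surjective g) (h1 : S_FAM1)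
    {α : Ordinal.{0}} {R : R2} {y d : ℕ → ℕ} {V : ℕ → R2} (hF : Fm g α R y d V)
    (hN : New R y d V) {s s' : ℕ} (hs : s' < s) :
    ¬ IsoOn (lift (lb (V s') (y (s' / 2)))) (lift (lb (V s) (y (s / 2))))
      (Ob R (y (s' / 2)) (d (s' / 2))) (Ob R (y (s / 2)) (d (s / 2))) ∅ := by
  intro h
  obtain ⟨e, h2⟩ := type_single hg h1 hF s'
  apply hN s {s'} (by rintro _ rfl; exact hs) (y (s' / 2)) (d (s' / 2))
  rw [e]
  exact iso_trans0 (iso_symm0 h2) h

theorem t_C1 (hG : S_GEO) (hT : S_TRQ) (h1 : S_FAM1) (h2 : S_FAM2) (h3 : S_SEQ) (hP : S_BP) :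
    S_C1 := by
  intro Γ _ g hg α R y hmb hom hlt hFew
  rintro ⟨d, hBg, hdis⟩
  obtain ⟨G1, G2, -, -, -, -, -, -, G9, -⟩ := hG Γ g hg R hmb
  have hyk : ∀ k, y ∉ Ob R y (d k) := fun k h => (hBg k).1 ((G9 y (d k)).1.1 h)
  have hD : ∀ j k, j ≠ k → Disjoint (Ob R y (d j)) (Ob R y (d k)) := by
    intro j k hjk
    rw [Set.disjoint_left]
    intro x hx hx'
    apply hdis j k hjk
    rw [← G2 y (d k) x hx', G2 y (d j) x hx]
    exact G1 y (d j)
  obtain ⟨V, hFm, hNew⟩ := h3 Γ g hg α R (fun _ => y) d hmb hom (fun j k => hyk k) hD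
    (fun k => (hBg k).2)
  obtain ⟨F1, F2, F3, F4, F5, F6⟩ := h1 Γ g hg α R (fun _ => y) d V hFm
  have key : ∀ (ε ε' : ℕ → Bool) (k : ℕ), ε k = true → ε' k = false →
      ¬ IsoOn (lift (FX R (fun _ => y) d V (Se ε))) (lift (FX R (fun _ => y) d V (Se ε')))
        univ univ {(y, y)} := by
    intro ε ε' k hk hk' hiso
    obtain ⟨q, hq1, hq2, hq3, hq4, hq5⟩ := hiso
    obtain ⟨v, hv⟩ := hq4 (d k) (mem_univ _)
    have hyq : (y, y) ∈ q := hq1 (mem_singleton _)
    have i1 := hT.2.2.2.1 _ _ q y y (d k) v ⟨q, Subset.rfl, hq2, hq3, hq4, hq5⟩ hyq hv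
    have i2 := i1.mono (empty_subset _)
    rw [F3] at i2
    have i3 := (F4 (Se ε) k).mono (empty_subset _)
    rw [pick_Se, hk] at i3
    have i4 := iso_trans0 i3 i2
    simp only [Bool.toNat_true] at i4
    have hs : (2 * k + 1) / 2 = k := by omega
    obtain ⟨G1', G2', -⟩ := hG Γ g hg _ (F2 (Se ε'))
    by_cases hvj : ∃ j, v ∈ Ob R y (d j)
    · obtain ⟨j, hj⟩ := hvj
      have e1 : Ob (FX R (fun _ => y) d V (Se ε')) y v = Ob R y (d j) := by
        have e2 := F3 (Se ε') j
        rw [← e2] at hj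
        rw [G2' y (d j) v hj]
        exact e2
      rw [e1] at i4
      have i5 := (F4 (Se ε') j).mono (empty_subset _)
      rw [pick_Se] at i5
      have i6 := iso_trans0 i4 (iso_symm0 i5)
      obtain ⟨s', hs'⟩ : ∃ s', s' = 2 * j + (ε' j).toNat := ⟨_, rfl⟩
      rw [← hs'] at i6
      have hb : (ε' j).toNat ≤ 1 := Bool.toNat_le _
      have hs2 : s' / 2 = j := by omega
      have hne : s' ≠ 2 * k + 1 := by
        intro h
        have h4 : j = k := by omega
        rw [h4, hk'] at hs'
        simp only [Bool.toNat_false] at hs'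
        omega
      rcases lt_or_gt_of_ne hne with h | h
      · have := types_ne hg h1 hFm hNew h
        simp only [hs, hs2] at this
        exact this (iso_symm0 i6)
      · have := types_ne hg h1 hFm hNew h
        simp only [hs, hs2] at this
        exact this i6
    · push Not at hvj
      have hdj : ∀ j, Disjoint (Ob (FX R (fun _ => y) d V (Se ε')) y v) (Ob R y (d j)) := by
        intro j
        rw [Set.disjoint_left]
        intro x hx hx'
        have e2 := F3 (Se ε') j
        apply hvj j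
        have hx2 : x ∈ Ob (FX R (fun _ => y) d V (Se ε')) y (d j) := by
          rw [e2]; exact hx'
        rw [← e2, ← G2' y (d j) x hx2, G2' y v x hx]
        exact G1' y v
      obtain ⟨-, i5⟩ := h2 Γ g hg α R (fun _ => y) d V hFm (Se ε') ∅ univ
        (fun k hk => absurd (mem_univ k) hk) y v (fun j _ => hvj j)
      have i6 := i5 (fun j _ => hdj j)
      have i7 := iso_trans0 i4 i6
      have := hNew (2 * k + 1) ∅ (fun s' h => absurd h (notMem_empty _)) y v
      rw [hs] at this
      exact this (iso_symm0 i7)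
  have hK : MeasurableSet {W : R2 | BF (lift R) (lift W) univ univ α ∅} := by
    have hlift : Measurable (lift : R2 → St ar) := measurable_const.prodMk measurable_id
    exact msg ar (lift R) univ R2 lift (fun _ => univ) hlift (fun z => by simp) α hlt ∅
  have hunc : ¬ Countable (ℕ → Bool) := Pool.Agent.H899R2.VP.not_countable_cantor
  refine hP {W : R2 | BF (lift R) (lift W) univ univ α ∅} hK hFew (ℕ → Bool) hunc
    (fun ε => FX R (fun _ => y) d V (Se ε)) (fun _ => y) F6.measurable measurable_const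
    (fun ε => (F1 (Se ε)).subset (empty_subset _)) ?_
  intro ε ε' hiso
  by_contra hne
  obtain ⟨k, hk⟩ := Function.ne_iff.1 hne
  cases h : ε k
  · cases h' : ε' k
    · exact hk (h.trans h'.symm)
    · refine key ε' ε k h' h ?_
      have := hiso.symm
      exact this.mono (by rintro _ rfl; exact mem_singleton _)
  · cases h' : ε' k
    · exact key ε ε' k h h' hiso
    · exact hk (h.trans h'.symm)

end Pool.Agent.Y41.TG
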